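import Pool.Agent.Q60.D3G.StmC

/-!
# Project D3G (helper60): job G3 PROJ
-/

set_option autoImplicit false

namespace Pool.Agent.Q211.D3G

open Module Pool.Agent.W547.LD Pool.Agent.W547.LD.Comb Pool.Agent.Q60.D3G

theorem avg {G : Type} [Group G] [Fintype G] {c : G} (hc : ∀ g, c * g = g * c) {N : Subgroup G}
    (hN : Imag c N) (F : G → ℚ) : ∑ g, chi N g • rtr g F = dot F (chi N) • chi N := by
  funext σ
  rw [Finset.sum_apply, Pi.smul_apply, smul_eq_mul]
  have h0 : chi N σ * chi N σ = 1 := by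
    rcases eps_cases {σ | σ ∈ N} σ with h | h <;> rw [chi, h] <;> norm_num
  have h1 : ∀ g, (chi N g • rtr g F) σ = F (σ * g) * chi N (σ * g) * chi N σ := by
    intro g
    have h2 := congrFun (rtr_chi hc hN g) σ
    rw [rtr_apply, Pi.smul_apply, smul_eq_mul] at h2
    rw [Pi.smul_apply, smul_eq_mul, rtr_apply, h2]
    calc chi N g * F (σ * g) = chi N g * F (σ * g) * (chi N σ * chi N σ) := by rw [h0, mul_one]
      _ = _ := by ring
  rw [Finset.sum_congr rfl fun g _ => h1 g, ← Finset.sum_mul]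
  congr 1
  exact Fintype.sum_equiv (Equiv.mulLeft σ) _ _ fun g => rfl

theorem proj : S_proj := by
  classical
  intro G _ _ c hc V hV F hF
  have hG : (Fintype.card G : ℚ) ≠ 0 := Nat.cast_ne_zero.2 Fintype.card_ne_zero
  let B : Finset (Subgroup G) := Finset.univ.filter fun N => Imag c N
  let R : G → ℚ := ∑ N ∈ B, (dot F (chi N) / Fintype.card G) • chi N
  have hmem : ∀ N ∈ B, (dot F (chi N) / Fintype.card G) • chi N ∈ V := by
    intro N hN
    have hN' : Imag c N := (Finset.mem_filter.1 hN).2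
    have h1 : ∑ g, chi N g • rtr g F ∈ V := Submodule.sum_mem _ fun g _ =>
      Submodule.smul_mem _ _ (hV g F hF)
    rw [avg hc hN'] at h1
    have h2 := Submodule.smul_mem V ((Fintype.card G : ℚ)⁻¹) h1
    rwa [smul_smul, ← div_eq_inv_mul] at h2
  have hR : R ∈ V := Submodule.sum_mem _ hmem
  refine ⟨F - R, Submodule.mem_inf.2 ⟨Submodule.sub_mem _ hF hR, ?_⟩, ?_⟩
  · intro N hN
    rw [dot_sub, dot_sum, Finset.sum_eq_single N]
    · rw [dot_smul, dot_chi_self, div_mul_cancel₀ _ hG, sub_self]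
    · intro M hM hne
      rw [dot_smul, dot_chi hc (Finset.mem_filter.1 hM).2 hN hne, mul_zero]
    · intro h
      exact absurd (Finset.mem_filter.2 ⟨Finset.mem_univ _, hN⟩) h
  · rw [sub_sub_cancel]
    refine Submodule.mem_inf.2 ⟨hR, Submodule.sum_mem _ fun N hN => Submodule.smul_mem _ _ ?_⟩
    exact eps_mem_QQ (Finset.mem_filter.1 hN).2

end Pool.Agent.Q211.D3G
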