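import Pool.Agent.Q60.D3G.StmC

/-!
# Project D3G (helper60): job G6 SEP
-/

set_option autoImplicit false

namespace Pool.Agent.Q211.D3G

open Module Pool.Agent.W547.LD Pool.Agent.W547.LD.Comb Pool.Agent.Q60.D3G

theorem absorb' {G : Type} [Group G] [Fintype G] {c : G} (M : Subgroup G) [Fintype M] {F : G → ℚ}
    (h1 : ∑ h : M, rtr h.1 F ∈ QQ c) (h : ∀ h ∈ M, F - rtr h F ∈ QQ c) : F ∈ QQ c := by
  have h2 : ∑ h : M, (F - rtr h.1 F) ∈ QQ c := Submodule.sum_mem _ fun k _ => h k.1 k.2
  rw [Finset.sum_sub_distrib, Finset.sum_const, Finset.card_univ] at h2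
  have h3 := Submodule.add_mem _ h2 h1
  rw [sub_add_cancel, ← Nat.cast_smul_eq_nsmul ℚ] at h3
  have h4 := Submodule.smul_mem _ ((Fintype.card M : ℚ)⁻¹) h3
  rwa [smul_smul, inv_mul_cancel₀ (Nat.cast_ne_zero.2 Fintype.card_ne_zero), one_smul] at h4

theorem sep' : S_sep := by
  classical
  intro G _ _ c hc V hV ι _ s
  induction s using Finset.induction_on with
  | empty =>
    intro M _ _ F f hF _ h
    rwa [Finset.sum_empty, add_zero] at h
  | insert i0 s hi0 ih =>
    intro M hN hsum F f hF hf h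
    have := hN i0 (Finset.mem_insert_self _ _)
    haveI : Fintype (M i0) := Fintype.ofFinite _
    refine absorb' (M i0) (hsum i0 (Finset.mem_insert_self _ _) F hF) ?_
    intro h1 hh1
    refine ih M (fun i hi => hN i (Finset.mem_insert_of_mem hi))
      (fun i hi => hsum i (Finset.mem_insert_of_mem hi)) (F - rtr h1 F)
      (fun i => f i - rtr h1 (f i)) (Submodule.sub_mem _ hF (hV h1 F hF)) ?_ ?_
    · intro i hi k hk
      have hni := hN i (Finset.mem_insert_of_mem hi)
      rw [map_sub, hf i (Finset.mem_insert_of_mem hi) k hk, rtr_rtr,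
        show k * h1 = h1 * (h1⁻¹ * k * h1) by group, ← rtr_rtr]
      have h2 := hni.conj_mem k hk h1⁻¹
      rw [inv_inv] at h2
      rw [hf i (Finset.mem_insert_of_mem hi) _ h2]
    · have h2 : F - rtr h1 F + ∑ i ∈ s, (f i - rtr h1 (f i)) =
          (F + ∑ i ∈ insert i0 s, f i) - rtr h1 (F + ∑ i ∈ insert i0 s, f i) := by
        rw [Finset.sum_insert hi0, map_add, map_add, map_sum,
          hf i0 (Finset.mem_insert_self _ _) h1 hh1, Finset.sum_sub_distrib]
        abel
      rw [h2]
      exact Submodule.sub_mem _ h (rtr_mem_QQ hc h1 h)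

end Pool.Agent.Q211.D3G
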