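import Pool.Agent.Q60.D3G.StmC

/-!
# Project D3G (helper60): job G8 TWO
-/

set_option autoImplicit false
set_option linter.unusedVariables false

namespace Pool.Agent.Q211.D3G

open Module Pool.Agent.W547.LD Pool.Agent.W547.LD.Comb Pool.Agent.Q60.D3G

theorem two (h7 : S_part) : S_two := by
  classical
  intro G _ _ c hc O hO hdisj hker P hPO a ha h0
  have hpart := h7 G c hc O hO hdisj hker P hPO a ha
  have hsuppQ : ∀ Q, ∀ S, S ∉ Q → aQ a Q S = 0 := fun Q S hS => if_neg hS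
  have hoddQ : ∀ Q ∈ O, ∀ S, aQ a Q Sᶜ = -aQ a Q S := by
    intro Q hQ S
    unfold aQ
    by_cases h : S ∈ Q
    · rw [if_pos h, if_pos ((hO Q hQ).compl S h), ha.odd]
    · rw [if_neg h, if_neg (fun h1 => h (((hO Q hQ).compl_mem_iff S).1 h1)), neg_zero]
  -- a positive element in each non-zero orbit
  have hgood : ∀ Q ∈ O, (∃ S ∈ Q, a S ≠ 0) → ∃ x ∈ Q, 0 < a x ∧ ∃ N, Good c (aQ a Q) x N := by
    rintro Q hQ ⟨S, hS, hne⟩
    have hx : ∃ x ∈ Q, 0 < a x := by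
      rcases lt_or_gt_of_ne hne with h | h
      · exact ⟨Sᶜ, (hO Q hQ).compl S hS, by rw [ha.odd]; linarith⟩
      · exact ⟨S, hS, h⟩
    obtain ⟨x, hx, hpos⟩ := hx
    have hQO := hO Q hQ
    obtain ⟨N, hN⟩ := exists_good hc hQO.stable hQO.trans hQO.compl hQO.half hQO.card
      (hsuppQ Q) (hoddQ Q hQ) (hpart Q hQ) (x := x) (by
        unfold aQ
        rw [if_pos hx]
        exact hpos.ne')
    exact ⟨x, hx, hpos, N, hN⟩
  have haQ : ∀ Q ∈ O, ∀ x ∈ Q, aQ a Q x = a x := fun Q _ x hx => if_pos hx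
  -- the first orbit
  obtain ⟨S0, hS0⟩ := Function.ne_iff.1 h0
  have hS0P : S0 ∈ P := by
    by_contra h
    exact hS0 (ha.supp S0 h)
  obtain ⟨Q0, hQ0, hS0Q⟩ := (hPO S0).1 hS0P
  obtain ⟨x, hx, hxpos, N, hN⟩ := hgood Q0 hQ0 ⟨S0, hS0Q, hS0⟩
  -- the scalar products with the character
  let t : Set (Set G) → ℚ := fun Q => dot (FF (aQ a Q)) (chi N)
  have hsum : ∑ Q ∈ O, t Q = 0 := by
    have h1 := dot_sum O (fun Q => FF (aQ a Q)) (chi N)
    rw [sum_FF O hdisj hPO ha, dot_zero] at h1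
    exact h1.symm
  have hG : (0 : ℚ) < Fintype.card G := Nat.cast_pos.2 Fintype.card_pos
  have hval : ∀ Q ∈ O, ∀ z ∈ Q, Good c (aQ a Q) z N →
      t Q = 2 * a z * psum N z 1 * Fintype.card G := by
    intro Q hQ z hz hg
    change dot (FF (aQ a Q)) (chi N) = _
    have h1 := hg.FF_eq
    rw [h1, dot_smul, dot_chi_self, haQ Q hQ z hz]
  have ht0 : t Q0 ≠ 0 := by
    rw [hval Q0 hQ0 x hx hN]
    have h1 : psum N x 1 ≠ 0 := by
      intro h
      have h2 := hN.abs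
      rw [h] at h2
      norm_num at h2
    exact mul_ne_zero (mul_ne_zero (mul_ne_zero two_ne_zero hxpos.ne') h1) hG.ne'
  obtain ⟨Q1, hQ1, ht1⟩ : ∃ Q1 ∈ O, t Q1 * t Q0 < 0 := by
    by_contra hcon
    push Not at hcon
    have h1 : ∑ Q ∈ O, t Q * t Q0 = 0 := by
      rw [← Finset.sum_mul, hsum, zero_mul]
    have h2 := (Finset.sum_eq_zero_iff_of_nonneg hcon).1 h1 Q0 hQ0
    exact ht0 (mul_self_eq_zero.1 h2)
  have hne : Q1 ≠ Q0 := by
    rintro rfl
    nlinarith [mul_self_nonneg (t Q1)]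
  have hQ1ne : ∃ S ∈ Q1, a S ≠ 0 := by
    by_contra hcon
    push Not at hcon
    have h1 : t Q1 = 0 := by
      change dot (FF (aQ a Q1)) (chi N) = 0
      have h2 : FF (aQ a Q1) = 0 := by
        funext σ
        change ∑ S : Set G, aQ a Q1 S * eps S σ = 0
        refine Finset.sum_eq_zero fun S _ => ?_
        unfold aQ
        by_cases h : S ∈ Q1
        · rw [if_pos h, hcon S h, zero_mul]
        · rw [if_neg h, zero_mul]
      rw [h2, dot_zero]
    rw [h1, zero_mul] at ht1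
    exact lt_irrefl _ ht1
  obtain ⟨y, hy, hypos, N', hN'⟩ := hgood Q1 hQ1 hQ1ne
  have hNN : N = N' := by
    by_contra h
    have h1 : t Q1 = 0 := by
      change dot (FF (aQ a Q1)) (chi N) = 0
      have h2 := hN'.FF_eq
      rw [h2, dot_smul, dot_comm, dot_chi hc hN.imag hN'.imag h, mul_zero]
    rw [h1, zero_mul] at ht1
    exact lt_irrefl _ ht1
  subst hNN
  have hpx : ∀ τ ∈ N, a (tr τ x) = a x := by
    intro τ hτ
    have h1 := hN.pos τ hτ x
    rwa [haQ Q0 hQ0 _ ((hO Q0 hQ0).stable τ x hx), haQ Q0 hQ0 x hx] at h1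
  have hpy : ∀ τ ∈ N, a (tr τ y) = a y := by
    intro τ hτ
    have h1 := hN'.pos τ hτ y
    rwa [haQ Q1 hQ1 _ ((hO Q1 hQ1).stable τ y hy), haQ Q1 hQ1 y hy] at h1
  have hdist : ∀ (S : OrbT N x) (T : OrbT N y), S.1 ≠ T.1 := by
    rintro ⟨S, τ, hτ, rfl⟩ ⟨T, τ', hτ', rfl⟩ h
    have h1 : tr τ x ∈ Q0 := (hO Q0 hQ0).stable τ x hx
    have h2 : tr τ' y ∈ Q1 := (hO Q1 hQ1).stable τ' y hy
    change tr τ x = tr τ' y at h
    rw [← h] at h2
    exact Set.disjoint_left.1 (hdisj Q1 hQ1 Q0 hQ0 hne) h2 h1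
  refine ⟨N, x, y, hpx, hpy, hxpos, hypos, hN.imag, hN.half, hN'.half, hN.stb_le, hN'.stb_le,
    hdist, ⟨?_, ?_⟩, ?_⟩
  · rcases hN.card with ⟨h1, -⟩ | h1
    · exact Or.inl h1
    · exact Or.inr h1
  · rcases hN'.card with ⟨h1, -⟩ | h1
    · exact Or.inl h1
    · exact Or.inr h1
  · rw [hval Q0 hQ0 x hx hN, hval Q1 hQ1 y hy hN'] at ht1
    have h1 := hN.abs
    have h2 := hN'.abs
    have h3 : (a x * a y * (Fintype.card G : ℚ) ^ 2) * (psum N x 1 * psum N y 1) < 0 := by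
      nlinarith
    have h4 : 0 < a x * a y * (Fintype.card G : ℚ) ^ 2 := by positivity
    have h5 : psum N x 1 * psum N y 1 < 0 := by
      by_contra h
      push Not at h
      have := mul_nonneg h4.le h
      linarith
    rcases (abs_eq (by norm_num : (0 : ℚ) ≤ 1)).1 h1 with h6 | h6 <;>
      rcases (abs_eq (by norm_num : (0 : ℚ) ≤ 1)).1 h2 with h7 | h7
    · exfalso
      rw [h6, h7] at h5
      norm_num at h5
    · rw [h6, h7]
      norm_num
    · rw [h6, h7]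
    · exfalso
      rw [h6, h7] at h5
      norm_num at h5


end Pool.Agent.Q211.D3G
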